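import Pool.Agent.Y272.LC.Stm
import Pool.Agent.Helper202.Univ

/-!
# Project LC, piece ENC: two rays with a common landing point enclose the points between them
-/

set_option autoImplicit false

open Complex Filter Topology Metric Set

namespace Pool.Agent.Y977.LC

open Pool.Agent.H712R2 Pool.Agent.H713R2 Pool.Agent.H713R2.AR Pool.Agent.W677.Mar Pool.Agent.Y272.TY
open Pool.Agent.Y272.LC

/-- a continuous function on an interval whose exponential is constant is constant -/
theorem const_of_exp {D : ℝ → ℂ} {p q : ℝ} (hpq : p ≤ q) {κ : ℂ} (hD : ContinuousOn D (Icc p q))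
    (he : ∀ s ∈ Icc p q, Complex.exp (D s) = κ) : ∀ s ∈ Icc p q, D s = D p := by
  have hp : p ∈ Icc p q := ⟨le_rfl, hpq⟩
  have h1 : ∀ s ∈ Icc p q, ∃ n : ℤ, D s = D p + n * (2 * Real.pi * I) := by
    intro s hs
    exact Complex.exp_eq_exp_iff_exists_int.1 ((he s hs).trans (he p hp).symm)
  have hcont : ContinuousOn (fun s => (D s - D p).im) (Icc p q) :=
    Complex.continuous_im.comp_continuousOn (hD.sub continuousOn_const)
  have hmaps : MapsTo (fun s => (D s - D p).im) (Icc p q)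
      (AddSubgroup.zmultiples (2 * Real.pi) : Set ℝ) := by
    intro s hs
    obtain ⟨n, hn⟩ := h1 s hs
    refine ⟨n, ?_⟩
    show n • (2 * Real.pi) = (D s - D p).im
    rw [hn]
    simp
  have h2 : DiscreteTopology (AddSubgroup.zmultiples (2 * Real.pi) : Set ℝ) :=
    inferInstanceAs (DiscreteTopology (AddSubgroup.zmultiples (2 * Real.pi)))
  intro s hs
  have h3 := isPreconnected_Icc.constant_of_mapsTo ⟨h2⟩ hcont hmaps hs hp
  simp only [sub_self, Complex.zero_im] at h3
  obtain ⟨n, hn⟩ := h1 s hs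
  rw [hn] at h3
  have h4 : (n : ℝ) * (2 * Real.pi) = 0 := by
    have : (D p + n * (2 * Real.pi * I) - D p).im = n * (2 * Real.pi) := by simp
    rw [this] at h3
    exact h3
  have h5 : (n : ℝ) = 0 := by
    rcases mul_eq_zero.1 h4 with h | h
    · exact h
    · exact absurd h (by positivity)
  rw [hn]
  have : (n : ℂ) = 0 := by exact_mod_cast h5
  rw [this]
  ring

/-- the change of a logarithm along a curve in a half plane -/
theorem side {L γ : ℝ → ℂ} {p q : ℝ} (hpq : p ≤ q) {κ : ℂ} (hL : ContinuousOn L (Icc p q))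
    (hγ : ContinuousOn γ (Icc p q)) (he : ∀ s ∈ Icc p q, Complex.exp (L s) = κ * γ s)
    (hre : ∀ s ∈ Icc p q, 0 < (γ s).re) : L q - L p = Complex.log (γ q) - Complex.log (γ p) := by
  have hne : ∀ s ∈ Icc p q, γ s ≠ 0 := by
    intro s hs h
    have := hre s hs
    rw [h] at this
    simp at this
  have h1 : ContinuousOn (fun s => L s - Complex.log (γ s)) (Icc p q) := by
    refine hL.sub ?_
    intro s hs
    refine (hγ s hs).clog ?_
    exact Or.inl (hre s hs)
  have h2 : ∀ s ∈ Icc p q, Complex.exp (L s - Complex.log (γ s)) = κ := by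
    intro s hs
    rw [Complex.exp_sub, Complex.exp_log (hne s hs), he s hs, mul_div_cancel_right₀ _ (hne s hs)]
  have h3 := const_of_exp hpq h1 h2 q ⟨hpq, le_rfl⟩
  linear_combination h3

/-- the affine coordinates -/
theorem zt_re (s t : ℝ) : (zt s t).re = s := by simp [zt]

theorem zt_im (s t : ℝ) : (zt s t).im = 2 * Real.pi * t := by simp [zt]

theorem zt_comb (x s t s' t' : ℝ) : zt s t + (x : ℂ) * (zt s' t' - zt s t) =
    zt (s + x * (s' - s)) (t + x * (t' - t)) := by
  simp only [zt]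
  push_cast
  ring

theorem continuous_zt : Continuous (fun q : ℝ × ℝ => zt q.1 q.2) := by
  unfold zt
  fun_prop

theorem im_shift (ζ ζ' : ℂ) (k : ℤ) (h : ζ = ζ' + k * (((2 * Real.pi : ℝ) : ℂ) * I))
    (hlt : |ζ.im - ζ'.im| < 2 * Real.pi) : ζ = ζ' := by
  have h1 : ζ.im - ζ'.im = k * (2 * Real.pi) := by
    rw [h]
    simp
  rw [h1, abs_mul, abs_of_pos (by positivity : (0 : ℝ) < 2 * Real.pi)] at hlt
  have h2 : |(k : ℝ)| < 1 := by
    have hpi : (0 : ℝ) < 2 * Real.pi := by positivity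
    nlinarith
  have h3 : |k| < 1 := by exact_mod_cast h2
  have h4 : k = 0 := Int.abs_lt_one_iff.1 h3
  rw [h, h4]
  simp

section
variable {d : ℕ} {Φ : ℂ → ℂ → ℂ} (hΦ : IsBott d Φ) {c : ℂ}

include hΦ in
theorem phi_inj {s s' t t' : ℝ} (hs : green d c 0 < s) (hs' : green d c 0 < s')
    (ht : |t - t'| < 1) (h : Φ c (zt s t) = Φ c (zt s' t')) : s = s' ∧ t = t' := by
  obtain ⟨k, hk⟩ := hΦ.inj c (zt s t) (zt s' t') (by rw [zt_re]; exact hs)
    (by rw [zt_re]; exact hs') h
  have h1 : zt s t = zt s' t' := by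
    refine im_shift _ _ k hk ?_
    rw [zt_im, zt_im, ← mul_sub, abs_mul, abs_of_pos (by positivity : (0 : ℝ) < 2 * Real.pi)]
    have hpi : (0 : ℝ) < 2 * Real.pi := by positivity
    nlinarith
  have h2 := congrArg Complex.re h1
  have h3 := congrArg Complex.im h1
  rw [zt_re, zt_re] at h2
  rw [zt_im, zt_im] at h3
  refine ⟨h2, ?_⟩
  have hpi : (2 * Real.pi) ≠ 0 := by positivity
  exact mul_left_cancel₀ hpi h3

/-- the half plane -/
def HP (d : ℕ) (c : ℂ) : Set ℂ := {ζ | green d c 0 < ζ.re}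

theorem isOpen_HP (d : ℕ) (c : ℂ) : IsOpen (HP d c) :=
  isOpen_lt continuous_const Complex.continuous_re

include hΦ in
theorem cont_u {ζ₀ : ℂ} (h0 : ζ₀ ∈ HP d c) : ContinuousOn (dslope (Φ c) ζ₀) (HP d c) := by
  have hm : HP d c ∈ 𝓝 ζ₀ := (isOpen_HP d c).mem_nhds h0
  rw [continuousOn_dslope hm]
  exact ⟨(hΦ.hol c).continuousOn, (hΦ.hol c).differentiableAt hm⟩

include hΦ in
theorem u_ne {s₀ t₀ : ℝ} (h0 : green d c 0 < s₀) {s t : ℝ} (hs : green d c 0 < s)
    (ht : |t - t₀| < 1) : dslope (Φ c) (zt s₀ t₀) (zt s t) ≠ 0 := by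
  by_cases he : zt s t = zt s₀ t₀
  · rw [he, dslope_same]
    have h1 : zt s₀ t₀ ∈ HP d c := by
      show green d c 0 < (zt s₀ t₀).re
      rw [zt_re]
      exact h0
    obtain ⟨r, hr, hrs⟩ := Metric.isOpen_iff.1 (isOpen_HP d c) _ h1
    have hU : IsOpen (ball (zt s₀ t₀) (min r Real.pi)) := isOpen_ball
    have hsub : ball (zt s₀ t₀) (min r Real.pi) ⊆ HP d c :=
      (ball_subset_ball (min_le_left _ _)).trans hrs
    refine Pool.Agent.Helper202.Univ.deriv_ne_zero hU ((hΦ.hol c).mono hsub) ?_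
      (mem_ball_self (lt_min hr Real.pi_pos))
    intro ζ hζ ζ' hζ' h
    obtain ⟨k, hk⟩ := hΦ.inj c ζ ζ' (hsub hζ) (hsub hζ') h
    refine im_shift _ _ k hk ?_
    have h2 : dist ζ ζ' < 2 * Real.pi := by
      have h3 : dist ζ (zt s₀ t₀) < Real.pi := lt_of_lt_of_le hζ (min_le_right _ _)
      have h4 : dist ζ' (zt s₀ t₀) < Real.pi := lt_of_lt_of_le hζ' (min_le_right _ _)
      linarith [dist_triangle_right ζ ζ' (zt s₀ t₀)]
    refine lt_of_le_of_lt ?_ h2
    rw [← Complex.sub_im, Complex.dist_eq]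
    exact Complex.abs_im_le_norm _
  · rw [dslope_of_ne _ he, slope_def_module]
    have h1 : zt s t - zt s₀ t₀ ≠ 0 := sub_ne_zero.2 he
    refine smul_ne_zero (inv_ne_zero h1) (sub_ne_zero.2 ?_)
    intro h2
    obtain ⟨h3, h4⟩ := phi_inj hΦ hs h0 ht h2
    exact he (by rw [h3, h4])

/-- the lower loop does not enclose the points above -/
theorem lower (hd : 2 ≤ d) (hF : St_Far) (hH : St_Hom) {Φ : ℂ → ℂ → ℂ} (hΦ : IsBott d Φ) {c : ℂ}
    {T0 T1 : ℝ → ℂ} {s₁ a b : ℝ} (hab : a ≤ b) (h1 : green d c 0 < s₁)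
    (hT0 : ContinuousOn T0 (Icc 0 s₁)) (hT1 : ContinuousOn T1 (Icc 0 s₁)) (hT : T0 0 = T1 0)
    (he0 : T0 s₁ = Φ c (zt s₁ a)) (he1 : T1 s₁ = Φ c (zt s₁ b))
    (hg : ∀ s ∈ Icc 0 s₁, green d c (T0 s) = s ∧ green d c (T1 s) = s) {s₀ t₀ : ℝ}
    (h0 : s₁ < s₀) : HasLog T0 T1 (fun t => Φ c (zt s₁ t)) s₁ a b (Φ c (zt s₀ t₀)) := by
  have hg0 := green_nonneg hd c 0
  have hs1 : 0 ≤ s₁ := by linarith
  have hC : ContinuousOn (fun t => Φ c (zt s₁ t)) (Icc a b) := by
    refine (hΦ.hol c).continuousOn.comp ?_ ?_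
    · exact (continuous_zt.comp (by fun_prop : Continuous fun t : ℝ => (s₁, t))).continuousOn
    · intro t _
      show green d c 0 < (zt s₁ t).re
      rw [zt_re]
      exact h1
  obtain ⟨r0, hr0⟩ := isCompact_Icc.exists_bound_of_continuousOn hT0
  obtain ⟨r1, hr1⟩ := isCompact_Icc.exists_bound_of_continuousOn hT1
  obtain ⟨r2, hr2⟩ := isCompact_Icc.exists_bound_of_continuousOn hC
  set r := max r0 (max r1 r2) with hr
  obtain ⟨G, hG⟩ := (isCompact_closedBall (0 : ℂ) r).exists_bound_of_continuousOn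
    (continuous_green hd c).continuousOn
  set M := max G 0 + 1 with hM
  have hM0 : 0 ≤ M := by have := le_max_right G 0; linarith
  let zz : ℝ → ℂ := fun τ => Φ c (zt (s₀ + (1 - τ) * M) t₀)
  have hzg : ∀ τ ∈ Icc (0 : ℝ) 1, green d c (zz τ) = s₀ + (1 - τ) * M := by
    intro τ hτ
    have h2 : 0 ≤ (1 - τ) * M := mul_nonneg (by linarith [hτ.2]) hM0
    have := hΦ.grn c (zt (s₀ + (1 - τ) * M) t₀) (by rw [zt_re]; linarith)
    rw [zt_re] at this
    exact this
  have hfar : HasLog T0 T1 (fun t => Φ c (zt s₁ t)) s₁ a b (zz 0) := by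
    refine hF T0 T1 _ s₁ a b r (zz 0) 0 hs1 hab hT0 hT1 hC hT he0 he1 ?_ ?_ ?_ ?_
    · intro s hs
      rw [sub_zero]
      exact (hr0 s hs).trans (le_max_left _ _)
    · intro s hs
      rw [sub_zero]
      exact (hr1 s hs).trans ((le_max_left _ _).trans (le_max_right _ _))
    · intro s hs
      rw [sub_zero]
      exact (hr2 s hs).trans ((le_max_right _ _).trans (le_max_right _ _))
    · rw [sub_zero]
      by_contra hcon
      push Not at hcon
      have h2 := hG (zz 0) (by rw [mem_closedBall, dist_zero_right]; exact hcon)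
      rw [hzg 0 ⟨le_rfl, zero_le_one⟩, Real.norm_eq_abs] at h2
      have h3 := le_abs_self (s₀ + (1 - 0) * M)
      have h4 := le_max_left G 0
      linarith
  have hz1 : zz 1 = Φ c (zt s₀ t₀) := by
    simp only [zz]
    congr 2
    ring
  have hcz : ContinuousOn zz (Icc 0 1) := by
    refine (hΦ.hol c).continuousOn.comp ?_ ?_
    · exact (continuous_zt.comp (by fun_prop :
        Continuous fun τ : ℝ => (s₀ + (1 - τ) * M, t₀))).continuousOn
    · intro τ hτ
      show green d c 0 < (zt (s₀ + (1 - τ) * M) t₀).re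
      rw [zt_re]
      have h2 : 0 ≤ (1 - τ) * M := mul_nonneg (by linarith [hτ.2]) hM0
      linarith
  have key := hH (fun _ => T0) (fun _ => T1) (fun _ t => Φ c (zt s₁ t)) zz s₁ a b hs1 hab
    (hT0.comp continuous_snd.continuousOn fun q hq => hq.2)
    (hT1.comp continuous_snd.continuousOn fun q hq => hq.2)
    (hC.comp continuous_snd.continuousOn fun q hq => hq.2) hcz
    (fun τ _ => ⟨hT, he0, he1⟩) ?_ ?_ hfar
  · rwa [hz1] at key
  · intro τ hτ s hs
    have h2 : 0 ≤ (1 - τ) * M := mul_nonneg (by linarith [hτ.2]) hM0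
    constructor
    · intro h3
      have h4 := (hg s hs).1
      rw [h3, hzg τ hτ] at h4
      linarith [hs.2]
    · intro h3
      have h4 := (hg s hs).2
      rw [h3, hzg τ hτ] at h4
      linarith [hs.2]
  · intro τ hτ t _ h3
    have h2 : 0 ≤ (1 - τ) * M := mul_nonneg (by linarith [hτ.2]) hM0
    have h4 := hΦ.grn c (zt s₁ t) (by rw [zt_re]; exact h1)
    rw [h3, hzg τ hτ, zt_re] at h4
    linarith

end

/-- a rectangle encloses its interior points: contradiction from a continuous logarithm -/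
theorem rect {s₀ t₀ s₁ l a b : ℝ} {v : ℂ} (h1 : s₁ < s₀) (h2 : s₀ < l) (h3 : 0 < s₁)
    (h4 : a < t₀) (h5 : t₀ < b) {M0 M1 M2 y0 y1 : ℝ → ℂ} (c0 : ContinuousOn M0 (Icc 0 l))
    (c1 : ContinuousOn M1 (Icc 0 l)) (c2 : ContinuousOn M2 (Icc a b))
    (hy0 : ContinuousOn y0 (Icc 0 s₁)) (hy1 : ContinuousOn y1 (Icc 0 s₁))
    (hr0 : ∀ s ∈ Icc 0 s₁, (y0 s).re = s₁) (hr1 : ∀ s ∈ Icc 0 s₁, (y1 s).re = s₁)
    (y00 : y0 0 = y1 0) (y01 : y0 s₁ = zt s₁ a) (y11 : y1 s₁ = zt s₁ b)
    (e0 : ∀ s ∈ Icc s₁ l, Complex.exp (M0 s) = (zt s a - zt s₀ t₀) * v)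
    (e0' : ∀ s ∈ Icc 0 s₁, Complex.exp (M0 s) = (y0 s - zt s₀ t₀) * v)
    (e1 : ∀ s ∈ Icc s₁ l, Complex.exp (M1 s) = (zt s b - zt s₀ t₀) * v)
    (e1' : ∀ s ∈ Icc 0 s₁, Complex.exp (M1 s) = (y1 s - zt s₀ t₀) * v)
    (e2 : ∀ t ∈ Icc a b, Complex.exp (M2 t) = (zt l t - zt s₀ t₀) * v)
    (m0 : M0 0 = M1 0) (ma : M0 l = M2 a) (mb : M1 l = M2 b) : False := by
  have hpi : 0 < 2 * Real.pi := by positivity
  have czs : ∀ t : ℝ, Continuous fun s => zt s t := fun t =>
    continuous_zt.comp (by fun_prop : Continuous fun s : ℝ => (s, t))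
  have czt : ∀ s : ℝ, Continuous fun t => zt s t := fun s =>
    continuous_zt.comp (by fun_prop : Continuous fun t : ℝ => (s, t))
  have S1 := side (L := M0) (γ := fun s => I * (zt s a - zt s₀ t₀)) (κ := -(I * v))
    (by linarith : s₁ ≤ l) (c0.mono (Icc_subset_Icc h3.le le_rfl))
    (((czs a).sub continuous_const).const_mul I).continuousOn
    (by
      intro s hs
      rw [e0 s hs]
      linear_combination ((zt s a - zt s₀ t₀) * v) * Complex.I_sq)
    (by
      intro s _
      rw [Complex.I_mul_re, Complex.sub_im, zt_im, zt_im]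
      nlinarith)
  have S2 := side (L := M0) (γ := fun s => -(y0 s - zt s₀ t₀)) (κ := -v)
    h3.le (c0.mono (Icc_subset_Icc le_rfl (by linarith))) (hy0.sub continuousOn_const).neg
    (by
      intro s hs
      rw [e0' s hs]
      ring)
    (by
      intro s hs
      rw [Complex.neg_re, Complex.sub_re, hr0 s hs, zt_re]
      linarith)
  have S3 := side (L := M1) (γ := fun s => -(I * (zt s b - zt s₀ t₀))) (κ := I * v)
    (by linarith : s₁ ≤ l) (c1.mono (Icc_subset_Icc h3.le le_rfl))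
    (((czs b).sub continuous_const).const_mul I).neg.continuousOn
    (by
      intro s hs
      rw [e1 s hs]
      linear_combination ((zt s b - zt s₀ t₀) * v) * Complex.I_sq)
    (by
      intro s _
      rw [Complex.neg_re, Complex.I_mul_re, Complex.sub_im, zt_im, zt_im]
      nlinarith)
  have S4 := side (L := M1) (γ := fun s => -(y1 s - zt s₀ t₀)) (κ := -v)
    h3.le (c1.mono (Icc_subset_Icc le_rfl (by linarith))) (hy1.sub continuousOn_const).neg
    (by
      intro s hs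
      rw [e1' s hs]
      ring)
    (by
      intro s hs
      rw [Complex.neg_re, Complex.sub_re, hr1 s hs, zt_re]
      linarith)
  have S5 := side (L := M2) (γ := fun t => zt l t - zt s₀ t₀) (κ := v)
    (by linarith : a ≤ b) c2 ((czt l).sub continuous_const).continuousOn
    (by
      intro s hs
      rw [e2 s hs]
      ring)
    (by
      intro s _
      rw [Complex.sub_re, zt_re, zt_re]
      linarith)
  rw [y01] at S2
  rw [y11, ← y00] at S4
  have A1 : 0 ≤ (Complex.log (I * (zt l a - zt s₀ t₀))).im := by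
    rw [Complex.log_im, Complex.arg_nonneg_iff, Complex.I_mul_im, Complex.sub_re, zt_re, zt_re]
    linarith
  have A2 : (Complex.log (I * (zt s₁ a - zt s₀ t₀))).im < 0 := by
    rw [Complex.log_im, Complex.arg_neg_iff, Complex.I_mul_im, Complex.sub_re, zt_re, zt_re]
    linarith
  have A3 : 0 ≤ (Complex.log (-(zt s₁ a - zt s₀ t₀))).im := by
    rw [Complex.log_im, Complex.arg_nonneg_iff, Complex.neg_im, Complex.sub_im, zt_im, zt_im]
    nlinarith
  have A4 : 0 ≤ (Complex.log (zt l b - zt s₀ t₀)).im := by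
    rw [Complex.log_im, Complex.arg_nonneg_iff, Complex.sub_im, zt_im, zt_im]
    nlinarith
  have A5 : (Complex.log (zt l a - zt s₀ t₀)).im < 0 := by
    rw [Complex.log_im, Complex.arg_neg_iff, Complex.sub_im, zt_im, zt_im]
    nlinarith
  have A6 : (Complex.log (-(I * (zt l b - zt s₀ t₀)))).im < 0 := by
    rw [Complex.log_im, Complex.arg_neg_iff, Complex.neg_im, Complex.I_mul_im, Complex.sub_re,
      zt_re, zt_re]
    linarith
  have A7 : 0 ≤ (Complex.log (-(I * (zt s₁ b - zt s₀ t₀)))).im := by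
    rw [Complex.log_im, Complex.arg_nonneg_iff, Complex.neg_im, Complex.I_mul_im, Complex.sub_re,
      zt_re, zt_re]
    linarith
  have A8 : (Complex.log (-(zt s₁ b - zt s₀ t₀))).im < 0 := by
    rw [Complex.log_im, Complex.arg_neg_iff, Complex.neg_im, Complex.sub_im, zt_im, zt_im]
    nlinarith
  have key : (Complex.log (I * (zt l a - zt s₀ t₀)) - Complex.log (I * (zt s₁ a - zt s₀ t₀))) +
      (Complex.log (-(zt s₁ a - zt s₀ t₀)) - Complex.log (-(y0 0 - zt s₀ t₀))) +
      (Complex.log (zt l b - zt s₀ t₀) - Complex.log (zt l a - zt s₀ t₀)) =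
      (Complex.log (-(I * (zt l b - zt s₀ t₀))) - Complex.log (-(I * (zt s₁ b - zt s₀ t₀)))) +
      (Complex.log (-(zt s₁ b - zt s₀ t₀)) - Complex.log (-(y0 0 - zt s₀ t₀))) := by
    rw [← S1, ← S2, ← S3, ← S4, ← S5, ma, mb, m0]
    ring
  have key2 := congrArg Complex.im key
  simp only [Complex.add_im, Complex.sub_im (Complex.log _)] at key2
  linarith

theorem t (_hG : St_Grn) (hF : St_Far) (hH : St_Hom) : St_Enc := by
  intro d Φ hd hΦ c T0 T1 l a b hab hba hT0 hT1 hT hray hgr s₀ t₀ hs0 hs0l hat htb hlog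
  have hg0 := green_nonneg hd c 0
  obtain ⟨s₁, h1, h2⟩ := exists_between hs0
  have h3 : 0 < s₁ := by linarith
  obtain ⟨L0, L1, L2, c0, c1, c2, e0, e1, e2, m0, ma, mb⟩ := hlog
  have hsub : Icc 0 s₁ ⊆ Icc 0 l := Icc_subset_Icc le_rfl (by linarith)
  have hs1l : s₁ ∈ Icc 0 l := ⟨h3.le, by linarith⟩
  obtain ⟨L0', L1', L2', c0', c1', c2', e0', e1', e2', m0', ma', mb'⟩ :=
    lower hd hF hH hΦ (c := c) (a := a) (b := b) hab.le h1 (hT0.mono hsub) (hT1.mono hsub) hT
      (hray s₁ hs1l h1).1 (hray s₁ hs1l h1).2 (fun s hs => hgr s (hsub hs)) (s₀ := s₀) (t₀ := t₀) h2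
  have k0 : ∀ s ∈ Icc 0 s₁, L0 s - L0' s = L0 0 - L0' 0 := by
    refine const_of_exp (D := fun s => L0 s - L0' s) h3.le (κ := 1) ((c0.mono hsub).sub c0') ?_
    intro s hs
    have hx := e0 s (hsub hs)
    have hy := e0' s hs
    rw [Complex.exp_sub, hx, hy, div_self]
    rw [← hy]
    exact Complex.exp_ne_zero _
  have k1 : ∀ s ∈ Icc 0 s₁, L1 s - L1' s = L1 0 - L1' 0 := by
    refine const_of_exp (D := fun s => L1 s - L1' s) h3.le (κ := 1) ((c1.mono hsub).sub c1') ?_
    intro s hs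
    have hx := e1 s (hsub hs)
    have hy := e1' s hs
    rw [Complex.exp_sub, hx, hy, div_self]
    rw [← hy]
    exact Complex.exp_ne_zero _
  have z1 : (0 : ℝ) ∈ Icc 0 s₁ := ⟨le_rfl, h3.le⟩
  have z2 : s₁ ∈ Icc 0 s₁ := ⟨h3.le, le_rfl⟩
  set κ := L0 0 - L0' 0 with hκ
  have hκ1 : Complex.exp κ = 1 := by
    rw [hκ, Complex.exp_sub, e0 0 (hsub z1), e0' 0 z1, div_self]
    rw [← e0' 0 z1]
    exact Complex.exp_ne_zero _
  have hκ2 : L1 0 - L1' 0 = κ := by rw [hκ, m0, m0']
  -- the logarithm along the lower side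
  set Λ : ℝ → ℂ := fun t => L2' t + κ with hΛ
  have hΛc : ContinuousOn Λ (Icc a b) := c2'.add continuousOn_const
  have hΛe : ∀ t ∈ Icc a b, Complex.exp (Λ t) = Φ c (zt s₁ t) - Φ c (zt s₀ t₀) := by
    intro t ht
    rw [hΛ]
    simp only
    rw [Complex.exp_add, hκ1, mul_one, e2' t ht]
  have hΛa : L0 s₁ = Λ a := by
    have := k0 s₁ z2
    rw [hΛ]
    simp only
    rw [← ma', ← this]
    ring
  have hΛb : L1 s₁ = Λ b := by
    have := k1 s₁ z2
    rw [hκ2] at this
    rw [hΛ]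
    simp only
    rw [← mb', ← this]
    ring
  -- the curve
  set pL : ℝ → ℝ := fun s => max 0 (s₁ - s) / s₁ with hpL
  have hpLc : Continuous pL := by
    rw [hpL]
    exact (continuous_const.max (continuous_const.sub continuous_id)).div_const _
  have hpL0 : pL 0 = 1 := by
    rw [hpL]
    simp only [sub_zero]
    rw [max_eq_right h3.le, div_self h3.ne']
  have hpLs : ∀ s, s₁ ≤ s → pL s = 0 := by
    intro s hs
    rw [hpL]
    simp only
    rw [max_eq_left (by linarith), zero_div]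
  have hpL01 : ∀ s, 0 ≤ s → 0 ≤ pL s ∧ pL s ≤ 1 := by
    intro s hs
    rw [hpL]
    simp only
    refine ⟨div_nonneg (le_max_left _ _) h3.le, ?_⟩
    rw [div_le_one h3]
    exact max_le h3.le (by linarith)
  set y0 : ℝ → ℝ := fun s => a + (t₀ - a) * pL s with hy0
  set y1 : ℝ → ℝ := fun s => b - (b - t₀) * pL s with hy1
  have hy0c : Continuous y0 := by rw [hy0]; fun_prop
  have hy1c : Continuous y1 := by rw [hy1]; fun_prop
  have hy0m : ∀ s, 0 ≤ s → a ≤ y0 s ∧ y0 s ≤ t₀ := by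
    intro s hs
    obtain ⟨g1, g2⟩ := hpL01 s hs
    rw [hy0]
    simp only
    constructor <;> nlinarith
  have hy1m : ∀ s, 0 ≤ s → t₀ ≤ y1 s ∧ y1 s ≤ b := by
    intro s hs
    obtain ⟨g1, g2⟩ := hpL01 s hs
    rw [hy1]
    simp only
    constructor <;> nlinarith
  have hy0s : ∀ s, s₁ ≤ s → y0 s = a := by
    intro s hs
    rw [hy0]
    simp only
    rw [hpLs s hs]
    ring
  have hy1s : ∀ s, s₁ ≤ s → y1 s = b := by
    intro s hs
    rw [hy1]
    simp only
    rw [hpLs s hs]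
    ring
  have hy00 : y0 0 = t₀ := by rw [hy0]; simp only; rw [hpL0]; ring
  have hy10 : y1 0 = t₀ := by rw [hy1]; simp only; rw [hpL0]; ring
  have hmaxc : Continuous fun s : ℝ => max s s₁ := continuous_id.max continuous_const
  have hmaxm : MapsTo (fun s : ℝ => max s s₁) (Icc 0 l) (Icc 0 l) := by
    intro s hs
    exact ⟨hs.1.trans (le_max_left _ _), max_le hs.2 (by linarith)⟩
  set ζc := zt s₀ t₀ with hζc
  have hζcH : ζc ∈ HP d c := by
    show green d c 0 < (zt s₀ t₀).re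
    rw [zt_re]
    exact hs0
  set u := dslope (Φ c) ζc with hu
  let W : ℂ → ℝ → ℂ := fun x τ => (x - ζc) * u (ζc + ((1 - τ : ℝ) : ℂ) * (x - ζc))
  let x0 : ℝ → ℂ := fun s => zt (max s s₁) (y0 s)
  let x1 : ℝ → ℂ := fun s => zt (max s s₁) (y1 s)
  have hx0c : Continuous x0 := continuous_zt.comp (hmaxc.prodMk hy0c)
  have hx1c : Continuous x1 := continuous_zt.comp (hmaxc.prodMk hy1c)
  have hxcc : Continuous fun t : ℝ => zt l t :=
    continuous_zt.comp (by fun_prop : Continuous fun t : ℝ => (l, t))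
  -- the value at time zero
  have hW0 : ∀ x : ℂ, W x 0 = Φ c x - Φ c ζc := by
    intro x
    have h4 := sub_smul_dslope (Φ c) ζc x
    rw [smul_eq_mul] at h4
    rw [← h4]
    simp only [W]
    congr 2
    push_cast
    ring
  have hW1 : ∀ x : ℂ, W x 1 = (x - ζc) * u ζc := by
    intro x
    simp only [W]
    congr 2
    push_cast
    ring
  -- continuity
  have hHPm : ∀ (τ s t : ℝ), τ ∈ Icc (0 : ℝ) 1 → s₁ ≤ s →
      ζc + ((1 - τ : ℝ) : ℂ) * (zt s t - ζc) ∈ HP d c := by
    intro τ s t hτ hs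
    rw [hζc, zt_comb]
    show green d c 0 < (zt _ _).re
    rw [zt_re]
    nlinarith [hτ.1, hτ.2]
  have hWc : ∀ (x : ℝ → ℂ) (p q : ℝ), Continuous x →
      (∀ s ∈ Icc p q, ∃ s' t' : ℝ, s₁ ≤ s' ∧ x s = zt s' t') →
      ContinuousOn (fun r : ℝ × ℝ => W (x r.2) r.1) (Icc 0 1 ×ˢ Icc p q) := by
    intro x p q hx hxm
    refine ContinuousOn.mul ?_ ?_
    · exact ((hx.comp continuous_snd).sub continuous_const).continuousOn
    · refine (cont_u hΦ hζcH).comp ?_ ?_
      · have : Continuous fun r : ℝ × ℝ => ((1 - r.1 : ℝ) : ℂ) :=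
          Complex.continuous_ofReal.comp (continuous_const.sub continuous_fst)
        exact (continuous_const.add (this.mul ((hx.comp continuous_snd).sub
          continuous_const))).continuousOn
      · rintro ⟨τ, s⟩ ⟨hτ, hs⟩
        obtain ⟨s', t', h4, h5⟩ := hxm s hs
        simp only
        rw [h5]
        exact hHPm τ s' t' hτ h4
  -- nonvanishing
  have hWn : ∀ (τ s t : ℝ), τ ∈ Icc (0 : ℝ) 1 → s₁ ≤ s → a ≤ t → t ≤ b → (s ≠ s₀ ∨ t ≠ t₀) →
      W (zt s t) τ ≠ 0 := by
    intro τ s t hτ hs hta htb' hne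
    simp only [W]
    refine mul_ne_zero ?_ ?_
    · intro h4
      rw [sub_eq_zero, hζc] at h4
      have h5 := congrArg Complex.re h4
      have h6 := congrArg Complex.im h4
      rw [zt_re, zt_re] at h5
      rw [zt_im, zt_im] at h6
      have hpi : (2 * Real.pi) ≠ 0 := by positivity
      have h7 := mul_left_cancel₀ hpi h6
      rcases hne with h | h
      · exact h h5
      · exact h h7
    · rw [hu, hζc, zt_comb]
      refine u_ne hΦ hs0 ?_ ?_
      · nlinarith [hτ.1, hτ.2]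
      · have h4 : |t - t₀| < 1 := by
          rw [abs_lt]
          constructor <;> linarith
        have h5 : t₀ + (1 - τ) * (t - t₀) - t₀ = (1 - τ) * (t - t₀) := by ring
        rw [h5, abs_mul, abs_of_nonneg (by linarith [hτ.2] : 0 ≤ 1 - τ)]
        have h6 := abs_nonneg (t - t₀)
        nlinarith [hτ.1, hτ.2]
  have hl : 0 ≤ l := by linarith
  have hmaxl : max l s₁ = l := max_eq_left (by linarith)
  have hmax0 : max (0 : ℝ) s₁ = s₁ := max_eq_right h3.le
  have hne0 : ∀ s, 0 ≤ s → (max s s₁ ≠ s₀ ∨ y0 s ≠ t₀) := by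
    intro s hs
    rcases le_total s s₁ with h | h
    · left
      rw [max_eq_right h]
      exact h2.ne
    · right
      rw [hy0s s h]
      exact hat.ne
  have hne1 : ∀ s, 0 ≤ s → (max s s₁ ≠ s₀ ∨ y1 s ≠ t₀) := by
    intro s hs
    rcases le_total s s₁ with h | h
    · left
      rw [max_eq_right h]
      exact h2.ne
    · right
      rw [hy1s s h]
      exact htb.ne'
  have key := hH (fun τ s => W (x0 s) τ) (fun τ s => W (x1 s) τ) (fun τ t => W (zt l t) τ)
    (fun _ => 0) l a b hl hab.le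
    (hWc x0 0 l hx0c fun s _ => ⟨_, _, le_max_right _ _, rfl⟩)
    (hWc x1 0 l hx1c fun s _ => ⟨_, _, le_max_right _ _, rfl⟩)
    (hWc (fun t => zt l t) a b hxcc fun s _ => ⟨_, _, by linarith, rfl⟩)
    continuousOn_const
    (by
      intro τ _
      refine ⟨?_, ?_, ?_⟩
      · show W (zt (max 0 s₁) (y0 0)) τ = W (zt (max 0 s₁) (y1 0)) τ
        rw [hy00, hy10]
      · show W (zt (max l s₁) (y0 l)) τ = W (zt l a) τ
        rw [hmaxl, hy0s l (by linarith)]
      · show W (zt (max l s₁) (y1 l)) τ = W (zt l b) τ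
        rw [hmaxl, hy1s l (by linarith)])
    (by
      intro τ hτ s hs
      have g0 := hy0m s hs.1
      have g1 := hy1m s hs.1
      exact ⟨hWn τ _ _ hτ (le_max_right _ _) g0.1 (by linarith) (hne0 s hs.1),
        hWn τ _ _ hτ (le_max_right _ _) (by linarith) g1.2 (hne1 s hs.1)⟩)
    (by
      intro τ hτ t ht
      exact hWn τ _ _ hτ (by linarith) ht.1 ht.2 (Or.inl hs0l.ne'))
    (by
      refine ⟨fun s => L0 (max s s₁) + Λ (y0 s) - Λ a, fun s => L1 (max s s₁) + Λ (y1 s) - Λ b, L2,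
        ?_, ?_, c2, ?_, ?_, ?_, ?_, ?_, ?_⟩
      · refine ((c0.comp hmaxc.continuousOn hmaxm).add (hΛc.comp hy0c.continuousOn ?_)).sub
          continuousOn_const
        intro s hs
        have := hy0m s hs.1
        exact ⟨this.1, by linarith⟩
      · refine ((c1.comp hmaxc.continuousOn hmaxm).add (hΛc.comp hy1c.continuousOn ?_)).sub
          continuousOn_const
        intro s hs
        have := hy1m s hs.1
        exact ⟨by linarith, this.2⟩
      · intro s hs
        show Complex.exp (L0 (max s s₁) + Λ (y0 s) - Λ a) = W (zt (max s s₁) (y0 s)) 0 - 0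
        rw [hW0, sub_zero]
        rcases le_total s s₁ with h | h
        · rw [max_eq_right h, hΛa, add_sub_cancel_left]
          have := hy0m s hs.1
          exact hΛe _ ⟨this.1, by linarith⟩
        · rw [max_eq_left h, hy0s s h, add_sub_cancel_right, e0 s hs,
            (hray s hs (by linarith)).1]
      · intro s hs
        show Complex.exp (L1 (max s s₁) + Λ (y1 s) - Λ b) = W (zt (max s s₁) (y1 s)) 0 - 0
        rw [hW0, sub_zero]
        rcases le_total s s₁ with h | h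
        · rw [max_eq_right h, hΛb, add_sub_cancel_left]
          have := hy1m s hs.1
          exact hΛe _ ⟨by linarith, this.2⟩
        · rw [max_eq_left h, hy1s s h, add_sub_cancel_right, e1 s hs,
            (hray s hs (by linarith)).2]
      · intro t ht
        show Complex.exp (L2 t) = W (zt l t) 0 - 0
        rw [hW0, sub_zero]
        exact e2 t ht
      · show L0 (max 0 s₁) + Λ (y0 0) - Λ a = L1 (max 0 s₁) + Λ (y1 0) - Λ b
        rw [hmax0, hΛa, hΛb, hy00, hy10]
        ring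
      · show L0 (max l s₁) + Λ (y0 l) - Λ a = L2 a
        rw [hmaxl, hy0s l (by linarith), add_sub_cancel_right, ma]
      · show L1 (max l s₁) + Λ (y1 l) - Λ b = L2 b
        rw [hmaxl, hy1s l (by linarith), add_sub_cancel_right, mb])
  obtain ⟨M0, M1, M2, d0, d1, d2, f0, f1, f2, n0, na, nb⟩ := key
  refine rect (v := u ζc) h2 hs0l h3 hat htb d0 d1 d2 (y0 := x0) (y1 := x1) hx0c.continuousOn
    hx1c.continuousOn ?_ ?_ ?_ ?_ ?_ ?_ ?_ ?_ ?_ ?_ n0 na nb
  · intro s hs
    show (zt (max s s₁) (y0 s)).re = s₁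
    rw [zt_re, max_eq_right hs.2]
  · intro s hs
    show (zt (max s s₁) (y1 s)).re = s₁
    rw [zt_re, max_eq_right hs.2]
  · show zt (max 0 s₁) (y0 0) = zt (max 0 s₁) (y1 0)
    rw [hy00, hy10]
  · show zt (max s₁ s₁) (y0 s₁) = zt s₁ a
    rw [max_self, hy0s s₁ le_rfl]
  · show zt (max s₁ s₁) (y1 s₁) = zt s₁ b
    rw [max_self, hy1s s₁ le_rfl]
  · intro s hs
    have h4 : Complex.exp (M0 s) = W (zt (max s s₁) (y0 s)) 1 - 0 := f0 s ⟨by linarith [hs.1], hs.2⟩
    rw [h4, hW1, sub_zero, max_eq_left hs.1, hy0s s hs.1]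
  · intro s hs
    have h4 : Complex.exp (M0 s) = W (x0 s) 1 - 0 := f0 s (hsub hs)
    rw [h4, hW1, sub_zero]
  · intro s hs
    have h4 : Complex.exp (M1 s) = W (zt (max s s₁) (y1 s)) 1 - 0 := f1 s ⟨by linarith [hs.1], hs.2⟩
    rw [h4, hW1, sub_zero, max_eq_left hs.1, hy1s s hs.1]
  · intro s hs
    have h4 : Complex.exp (M1 s) = W (x1 s) 1 - 0 := f1 s (hsub hs)
    rw [h4, hW1, sub_zero]
  · intro t ht
    have h4 : Complex.exp (M2 t) = W (zt l t) 1 - 0 := f2 t ht
    rw [h4, hW1, sub_zero]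

end Pool.Agent.Y977.LC
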